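import Pool.Agent.Helper88.LCU.RR2
import Pool.Agent.Helper49.LCU.HLA
import Pool.Agent.Helper5.LCU.Pairs

set_option autoImplicit false

open Finset Pool.Agent.Helper89.UB Pool.Agent.Helper5.LCU

namespace Pool.Agent.Helper38.LCU

open scoped Classical in
/-- partitions of `S` into `m` nonempty blocks without edges -/
noncomputable def PS {n : ℕ} (E : Finset (Finset (Fin n))) (S : Finset (Fin n)) (m : ℕ) :
    Finset (Finset (Finset (Fin n))) :=
  univ.filter (fun P => P.card = m ∧ (∀ B ∈ P, B.Nonempty) ∧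
    (∀ B ∈ P, ∀ C ∈ P, B ≠ C → Disjoint B C) ∧ (∀ v, v ∈ S ↔ ∃ B ∈ P, v ∈ B) ∧
    (∀ B ∈ P, Al E B))

theorem mem_PS {n : ℕ} {E : Finset (Finset (Fin n))} {S : Finset (Fin n)} {m : ℕ}
    {P : Finset (Finset (Fin n))} : P ∈ PS E S m ↔ P.card = m ∧ (∀ B ∈ P, B.Nonempty) ∧
    (∀ B ∈ P, ∀ C ∈ P, B ≠ C → Disjoint B C) ∧ (∀ v, v ∈ S ↔ ∃ B ∈ P, v ∈ B) ∧
    (∀ B ∈ P, Al E B) := by
  classical
  unfold PS
  rw [Finset.mem_filter]
  exact ⟨fun h => h.2, fun h => ⟨Finset.mem_univ _, h⟩⟩

theorem pn_eq {n : ℕ} (E : Finset (Finset (Fin n))) (S : Finset (Fin n)) (m : ℕ) :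
    pn E S m = (PS E S m).card := by
  unfold pn
  rw [← Set.ncard_coe_finset]
  congr 1
  ext P
  rw [Finset.mem_coe, mem_PS]
  exact Iff.rfl

theorem ins_mem {n : ℕ} {E : Finset (Finset (Fin n))} {S : Finset (Fin n)} {v : Fin n} {m : ℕ}
    {B : Finset (Fin n)} {P : Finset (Finset (Fin n))} (hBS : B ⊆ S) (hvB : v ∈ B)
    (hB : Al E B) (hP : P ∈ PS E (S \ B) m) : B ∉ P ∧ insert B P ∈ PS E S (m + 1) := by
  rw [mem_PS] at hP
  obtain ⟨hc, hne, hd, hcov, hal⟩ := hP
  have hnot : B ∉ P := by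
    intro hBP
    have h1 := (hcov v).2 ⟨B, hBP, hvB⟩
    exact (Finset.mem_sdiff.1 h1).2 hvB
  refine ⟨hnot, ?_⟩
  have hdB : ∀ C ∈ P, Disjoint B C := by
    intro C hC
    rw [Finset.disjoint_left]
    intro w hwB hwC
    have h1 := (hcov w).2 ⟨C, hC, hwC⟩
    exact (Finset.mem_sdiff.1 h1).2 hwB
  rw [mem_PS]
  refine ⟨by rw [Finset.card_insert_of_notMem hnot, hc], ?_, ?_, ?_, ?_⟩
  · intro C hC
    rcases Finset.mem_insert.1 hC with rfl | hC
    · exact ⟨v, hvB⟩
    · exact hne C hC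
  · intro C hC D hD hCD
    rcases Finset.mem_insert.1 hC with h1 | h1
    · rcases Finset.mem_insert.1 hD with h2 | h2
      · exact absurd (h1.trans h2.symm) hCD
      · rw [h1]
        exact hdB D h2
    · rcases Finset.mem_insert.1 hD with h2 | h2
      · rw [h2]
        exact (hdB C h1).symm
      · exact hd C h1 D h2 hCD
  · intro w
    constructor
    · intro hw
      by_cases hwB : w ∈ B
      · exact ⟨B, Finset.mem_insert_self _ _, hwB⟩
      · obtain ⟨C, hC, hwC⟩ := (hcov w).1 (Finset.mem_sdiff.2 ⟨hw, hwB⟩)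
        exact ⟨C, Finset.mem_insert_of_mem hC, hwC⟩
    · rintro ⟨C, hC, hwC⟩
      rcases Finset.mem_insert.1 hC with rfl | hC
      · exact hBS hwC
      · exact (Finset.mem_sdiff.1 ((hcov w).2 ⟨C, hC, hwC⟩)).1
  · intro C hC
    rcases Finset.mem_insert.1 hC with rfl | hC
    · exact hB
    · exact hal C hC

open scoped Classical in
/-- the allowed blocks of `S` at `v` -/
noncomputable def FB {n : ℕ} (E : Finset (Finset (Fin n))) (S : Finset (Fin n)) (v : Fin n) :
    Finset (Finset (Fin n)) :=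
  S.powerset.filter (fun B => v ∈ B ∧ Al E B)

theorem mem_FB {n : ℕ} {E : Finset (Finset (Fin n))} {S : Finset (Fin n)} {v : Fin n}
    {B : Finset (Fin n)} : B ∈ FB E S v ↔ B ⊆ S ∧ v ∈ B ∧ Al E B := by
  classical
  unfold FB
  rw [Finset.mem_filter, Finset.mem_powerset]

theorem PS_succ {n : ℕ} (E : Finset (Finset (Fin n))) (S : Finset (Fin n)) (v : Fin n)
    (hv : v ∈ S) (m : ℕ) :
    PS E S (m + 1) = (FB E S v).biUnion
      (fun B => (PS E (S \ B) m).image (fun P => insert B P)) := by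
  ext P
  rw [Finset.mem_biUnion]
  constructor
  · intro hP
    have hP' := hP
    rw [mem_PS] at hP'
    obtain ⟨hc, hne, hd, hcov, hal⟩ := hP'
    obtain ⟨B, hB, hvB⟩ := (hcov v).1 hv
    refine ⟨B, mem_FB.2 ⟨fun w hw => (hcov w).2 ⟨B, hB, hw⟩, hvB, hal B hB⟩, ?_⟩
    rw [Finset.mem_image]
    refine ⟨P.erase B, ?_, Finset.insert_erase hB⟩
    rw [mem_PS]
    refine ⟨by rw [Finset.card_erase_of_mem hB, hc]; rfl,
      fun C hC => hne C (Finset.mem_of_mem_erase hC),
      fun C hC D hD hCD => hd C (Finset.mem_of_mem_erase hC) D (Finset.mem_of_mem_erase hD) hCD,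
      ?_, fun C hC => hal C (Finset.mem_of_mem_erase hC)⟩
    intro w
    constructor
    · intro hw
      rw [Finset.mem_sdiff] at hw
      obtain ⟨C, hC, hwC⟩ := (hcov w).1 hw.1
      refine ⟨C, Finset.mem_erase.2 ⟨?_, hC⟩, hwC⟩
      rintro rfl
      exact hw.2 hwC
    · rintro ⟨C, hC, hwC⟩
      rw [Finset.mem_erase] at hC
      refine Finset.mem_sdiff.2 ⟨(hcov w).2 ⟨C, hC.2, hwC⟩, fun hwB => ?_⟩
      exact Finset.disjoint_left.1 (hd C hC.2 B hB hC.1) hwC hwB
  · rintro ⟨B, hB, hP⟩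
    rw [mem_FB] at hB
    rw [Finset.mem_image] at hP
    obtain ⟨P', hP', rfl⟩ := hP
    exact (ins_mem hB.1 hB.2.1 hB.2.2 hP').2

theorem pn_succ {n : ℕ} (E : Finset (Finset (Fin n))) (S : Finset (Fin n)) (v : Fin n)
    (hv : v ∈ S) (m : ℕ) :
    pn E S (m + 1) = ∑ B ∈ FB E S v, pn E (S \ B) m := by
  rw [pn_eq, PS_succ E S v hv m, Finset.card_biUnion]
  · refine Finset.sum_congr rfl fun B hB => ?_
    rw [mem_FB] at hB
    rw [pn_eq, Finset.card_image_of_injOn]
    intro P hP Q hQ hPQ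
    have h1 := (ins_mem hB.1 hB.2.1 hB.2.2 (Finset.mem_coe.1 hP)).1
    have h2 := (ins_mem hB.1 hB.2.1 hB.2.2 (Finset.mem_coe.1 hQ)).1
    have h3 : insert B P = insert B Q := hPQ
    rw [← Finset.erase_insert h1, h3, Finset.erase_insert h2]
  · intro B hB C hC hBC
    rw [Finset.mem_coe, mem_FB] at hB hC
    show Disjoint _ _
    rw [Finset.disjoint_left]
    intro P hP hP'
    rw [Finset.mem_image] at hP hP'
    obtain ⟨Q, hQ, rfl⟩ := hP
    obtain ⟨R, hR, hRQ⟩ := hP'
    have h1 := (ins_mem hB.1 hB.2.1 hB.2.2 hQ).2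
    rw [mem_PS] at h1
    have hCm : C ∈ insert B Q := by
      rw [← hRQ]
      exact Finset.mem_insert_self _ _
    have h2 := h1.2.2.1 B (Finset.mem_insert_self _ _) C hCm hBC
    exact Finset.disjoint_left.1 h2 hB.2.1 hC.2.1

open scoped Classical in
/-- neighbours of `v` in the graph of the allowed pairs -/
noncomputable def NB {n : ℕ} (E : Finset (Finset (Fin n))) (v : Fin n) (S : Finset (Fin n)) :
    Finset (Fin n) :=
  (S.erase v).filter (fun u => Al E {v, u})

theorem mem_NB {n : ℕ} {E : Finset (Finset (Fin n))} {v u : Fin n} {S : Finset (Fin n)} :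
    u ∈ NB E v S ↔ (u ≠ v ∧ u ∈ S) ∧ Al E {v, u} := by
  classical
  unfold NB
  rw [Finset.mem_filter, Finset.mem_erase]

theorem FB_eq {n : ℕ} (E : Finset (Finset (Fin n))) (S : Finset (Fin n)) (v : Fin n)
    (hv : v ∈ S) (h3 : ∀ X ⊆ S, X.card = 3 → ∃ e ∈ E, e ⊆ X) (h1 : Al E {v}) :
    FB E S v = insert {v} ((NB E v S).image (fun u => ({v, u} : Finset (Fin n)))) := by
  ext B
  rw [mem_FB, Finset.mem_insert, Finset.mem_image]
  constructor
  · rintro ⟨hBS, hvB, hal⟩
    have hc : B.card ≤ 2 := by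
      by_contra hlt
      obtain ⟨X, hXB, hX⟩ := Finset.exists_subset_card_eq (show 3 ≤ B.card by omega)
      obtain ⟨e, he, heX⟩ := h3 X (hXB.trans hBS) hX
      exact hal e he (heX.trans hXB)
    have hc1 : (B.erase v).card ≤ 1 := by
      rw [Finset.card_erase_of_mem hvB]
      omega
    haveI : Nonempty (Fin n) := ⟨v⟩
    rcases Finset.card_le_one_iff_subset_singleton.1 hc1 with ⟨u, hu⟩
    by_cases huB : u ∈ B.erase v
    · right
      rw [Finset.mem_erase] at huB
      have hB : ({v, u} : Finset (Fin n)) = B := by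
        ext w
        rw [Finset.mem_insert, Finset.mem_singleton]
        constructor
        · rintro (rfl | rfl)
          · exact hvB
          · exact huB.2
        · intro hw
          by_cases hwv : w = v
          · exact Or.inl hwv
          · exact Or.inr (Finset.mem_singleton.1 (hu (Finset.mem_erase.2 ⟨hwv, hw⟩)))
      refine ⟨u, ?_, hB⟩
      rw [mem_NB]
      refine ⟨⟨huB.1, hBS huB.2⟩, ?_⟩
      rw [hB]
      exact hal
    · left
      ext w
      rw [Finset.mem_singleton]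
      constructor
      · intro hw
        by_contra hwv
        have h4 := Finset.mem_erase.2 ⟨hwv, hw⟩
        have h5 := Finset.mem_singleton.1 (hu h4)
        rw [h5] at h4
        exact huB h4
      · rintro rfl
        exact hvB
  · rintro (rfl | ⟨u, hu, rfl⟩)
    · exact ⟨Finset.singleton_subset_iff.2 hv, Finset.mem_singleton_self _, h1⟩
    · rw [mem_NB] at hu
      refine ⟨?_, Finset.mem_insert_self _ _, hu.2⟩
      intro w hw
      rw [Finset.mem_insert, Finset.mem_singleton] at hw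
      rcases hw with rfl | rfl
      · exact hv
      · exact hu.1.2

theorem pn_pairs {n : ℕ} (E : Finset (Finset (Fin n))) (S : Finset (Fin n)) (v : Fin n)
    (hv : v ∈ S) (h3 : ∀ X ⊆ S, X.card = 3 → ∃ e ∈ E, e ⊆ X) (h1 : Al E {v}) (m : ℕ) :
    pn E S (m + 1) = pn E (S.erase v) m + ∑ u ∈ NB E v S, pn E ((S.erase v).erase u) m := by
  rw [pn_succ E S v hv m, FB_eq E S v hv h3 h1, Finset.sum_insert, Finset.sum_image]
  · congr 1
    · rw [Finset.sdiff_singleton_eq_erase]
    · refine Finset.sum_congr rfl fun u _ => ?_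
      congr 1
      ext w
      rw [Finset.mem_sdiff, Finset.mem_insert, Finset.mem_singleton, Finset.mem_erase,
        Finset.mem_erase]
      tauto
  · intro a ha b hb hab
    have ha' : a ≠ v := (mem_NB.1 (Finset.mem_coe.1 ha)).1.1
    have h4 : a ∈ ({v, b} : Finset (Fin n)) := by
      have h5 : ({v, a} : Finset (Fin n)) = {v, b} := hab
      rw [← h5]
      exact Finset.mem_insert_of_mem (Finset.mem_singleton_self _)
    rw [Finset.mem_insert, Finset.mem_singleton] at h4
    exact h4.resolve_left ha'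
  · rw [Finset.mem_image]
    rintro ⟨u, hu, huv⟩
    rw [mem_NB] at hu
    have h4 : u ∈ ({v} : Finset (Fin n)) := by
      rw [← huv]
      exact Finset.mem_insert_of_mem (Finset.mem_singleton_self _)
    exact hu.1.1 (Finset.mem_singleton.1 h4)

theorem pn_zero {n : ℕ} (E : Finset (Finset (Fin n))) (S : Finset (Fin n)) (v : Fin n)
    (hv : v ∈ S) : pn E S 0 = 0 := by
  rw [pn_eq, Finset.card_eq_zero, Finset.eq_empty_iff_forall_notMem]
  intro P hP
  rw [mem_PS] at hP
  obtain ⟨hc, -, -, hcov, -⟩ := hP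
  obtain ⟨B, hB, -⟩ := (hcov v).1 hv
  rw [Finset.card_eq_zero] at hc
  rw [hc] at hB
  exact absurd hB (Finset.notMem_empty _)

theorem pn_forb {n : ℕ} (E : Finset (Finset (Fin n))) (S : Finset (Fin n)) (v : Fin n)
    (hv : v ∈ S) (h1 : ¬ Al E {v}) (m : ℕ) : pn E S m = 0 := by
  rw [pn_eq, Finset.card_eq_zero, Finset.eq_empty_iff_forall_notMem]
  intro P hP
  rw [mem_PS] at hP
  obtain ⟨-, -, -, hcov, hal⟩ := hP
  obtain ⟨B, hB, hvB⟩ := (hcov v).1 hv
  refine h1 fun e he hev => hal B hB e he (hev.trans ?_)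
  exact Finset.singleton_subset_iff.2 hvB

theorem PG_empty {n : ℕ} (E : Finset (Finset (Fin n))) : PG E ∅ = 1 := by
  ext m
  rw [RR2.coeff_PG, Polynomial.coeff_one, pn_eq]
  have h0 : ∀ P ∈ PS E ∅ m, P = ∅ := by
    intro P hP
    rw [mem_PS] at hP
    obtain ⟨-, hne, -, hcov, -⟩ := hP
    rw [Finset.eq_empty_iff_forall_notMem]
    intro B hB
    obtain ⟨w, hw⟩ := hne B hB
    exact absurd ((hcov w).2 ⟨B, hB, hw⟩) (Finset.notMem_empty _)
  by_cases hm : m = 0
  · subst hm
    have h1 : PS E (∅ : Finset (Fin n)) 0 = {∅} := by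
      ext P
      rw [Finset.mem_singleton]
      refine ⟨h0 P, ?_⟩
      rintro rfl
      rw [mem_PS]
      refine ⟨rfl, ?_, ?_, ?_, ?_⟩
      · intro B hB
        exact absurd hB (Finset.notMem_empty _)
      · intro B hB
        exact absurd hB (Finset.notMem_empty _)
      · intro w
        constructor
        · intro hw
          exact absurd hw (Finset.notMem_empty _)
        · rintro ⟨B, hB, -⟩
          exact absurd hB (Finset.notMem_empty _)
      · intro B hB
        exact absurd hB (Finset.notMem_empty _)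
    rw [h1]
    simp
  · rw [if_neg hm]
    have h1 : PS E (∅ : Finset (Fin n)) m = ∅ := by
      rw [Finset.eq_empty_iff_forall_notMem]
      intro P hP
      have h2 := h0 P hP
      rw [mem_PS] at hP
      rw [h2] at hP
      exact hm hP.1.symm
    rw [h1]
    simp

theorem PG_rec {n : ℕ} (E : Finset (Finset (Fin n))) (S : Finset (Fin n)) (v : Fin n)
    (hv : v ∈ S) (h3 : ∀ X ⊆ S, X.card = 3 → ∃ e ∈ E, e ⊆ X) (h1 : Al E {v}) :
    PG E S = Polynomial.X * (PG E (S.erase v) + ∑ u ∈ NB E v S, PG E ((S.erase v).erase u)) := by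
  ext m
  rcases m with _ | m
  · rw [RR2.coeff_PG, pn_zero E S v hv, Polynomial.mul_coeff_zero, Polynomial.coeff_X_zero]
    simp
  · rw [RR2.coeff_PG, Polynomial.coeff_X_mul, Polynomial.coeff_add, Polynomial.finsetSum_coeff,
      pn_pairs E S v hv h3 h1 m]
    simp only [RR2.coeff_PG]
    push_cast
    rfl

/-- row HL: the theorem of Heilmann and Lieb for the graph of the allowed pairs -/
theorem st_HL : ST_HL := by
  intro n E S h3
  by_cases hf : ∃ v ∈ S, ¬ Al E {v}
  · obtain ⟨v, hv, h1⟩ := hf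
    have h0 : PG E S = 0 := by
      ext m
      rw [RR2.coeff_PG, pn_forb E S v hv h1 m]
      simp
    rw [h0]
    exact Polynomial.Splits.zero
  · push Not at hf
    refine Pool.Agent.Helper49.LCU.splits_of_rec (f := PG E) (N := NB E) (PG_empty E) ?_ ?_
    · intro T _ v _ u hu
      rw [mem_NB] at hu
      exact Finset.mem_erase.2 hu.1
    · intro T hT v hv
      exact PG_rec E T v hv (fun X hX hc => h3 X (hX.trans hT) hc) (hf v (hT hv))

end Pool.Agent.Helper38.LCU
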